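import Mathlib

set_option autoImplicit false

namespace CIT85

open MvPolynomial Module

/-- Chains of primes lift along injective integral extensions. -/
lemma ringKrullDim_le_of_integral {A R : Type*} [CommRing A] [CommRing R] [Algebra A R]
    (hinj : Function.Injective (algebraMap A R)) [Algebra.IsIntegral A R] :
    ringKrullDim A ≤ ringKrullDim R := by
  unfold ringKrullDim Order.krullDim
  refine iSup_le fun s => ?_
  suffices h : ∀ l : ℕ, ∀ s : LTSeries (PrimeSpectrum A), s.length = l →
      ∃ t : LTSeries (PrimeSpectrum R), t.length = l ∧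
        PrimeSpectrum.comap (algebraMap A R) t.last = s.last by
    obtain ⟨t, ht, -⟩ := h _ s rfl
    rw [← ht]
    exact le_iSup (fun t : LTSeries (PrimeSpectrum R) => ((t.length : ℕ∞) : WithBot ℕ∞)) t
  intro l
  induction l with
  | zero =>
    intro s hs
    obtain ⟨Q, -, hQ, hQ'⟩ := Ideal.exists_ideal_over_prime_of_isIntegral (S := R)
      s.last.asIdeal ⊥ (by
        rw [← RingHom.ker_eq_comap_bot, (RingHom.injective_iff_ker_eq_bot _).mp hinj]
        exact bot_le)
    refine ⟨RelSeries.singleton _ ⟨Q, hQ⟩, rfl, ?_⟩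
    ext1
    simpa using hQ'
  | succ l ih =>
    intro s hs
    have hne : s.length ≠ 0 := by omega
    obtain ⟨t, ht, htl⟩ := ih s.eraseLast (by simp [hs])
    have hlt : s.eraseLast.last < s.last := s.eraseLast_last_rel_last hne
    obtain ⟨Q, hQt, hQ, hQ'⟩ := Ideal.exists_ideal_over_prime_of_isIntegral (S := R)
      s.last.asIdeal t.last.asIdeal (by
        have h1 := congrArg PrimeSpectrum.asIdeal htl
        rw [PrimeSpectrum.comap_asIdeal] at h1
        rw [h1]
        exact hlt.le)
    have hlt' : t.last < ⟨Q, hQ⟩ := by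
      refine lt_of_le_of_ne hQt ?_
      intro h
      rw [h] at htl
      have h1 := congrArg PrimeSpectrum.asIdeal htl
      rw [PrimeSpectrum.comap_asIdeal] at h1
      change Q.comap _ = _ at h1
      rw [hQ'] at h1
      exact hlt.ne (PrimeSpectrum.ext h1.symm)
    refine ⟨t.snoc ⟨Q, hQ⟩ hlt', by simp [ht], ?_⟩
    rw [RelSeries.last_snoc]
    ext1
    simpa using hQ'

/-- The transcendence degree is at most the Krull dimension for finitely generated domains. -/
lemma card_le_ringKrullDim {k R : Type} [Field k] [CommRing R] [IsDomain R] [Algebra k R]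
    [Algebra.FiniteType k R] {ι : Type} [Fintype ι] (x : ι → R) (hx : AlgebraicIndependent k x) :
    (Fintype.card ι : WithBot ℕ∞) ≤ ringKrullDim R := by
  obtain ⟨s, g, ginj, gint⟩ := exists_integral_inj_algHom_of_fg k R
  let _ : Algebra (MvPolynomial (Fin s) k) R := g.toRingHom.toAlgebra
  have _ : IsScalarTower k (MvPolynomial (Fin s) k) R := IsScalarTower.of_algebraMap_eq' g.comp_algebraMap.symm
  have _ : Algebra.IsIntegral (MvPolynomial (Fin s) k) R := ⟨gint⟩
  have h1 : ringKrullDim (MvPolynomial (Fin s) k) ≤ ringKrullDim R :=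
    ringKrullDim_le_of_integral (A := MvPolynomial (Fin s) k) (R := R) ginj
  rw [MvPolynomial.ringKrullDim_of_isNoetherianRing, ringKrullDim_eq_zero_of_field] at h1
  have h2 : Fintype.card ι ≤ s := by
    have h3 := hx.lift_cardinalMk_le_trdeg
    have _ : FaithfulSMul (MvPolynomial (Fin s) k) R := (faithfulSMul_iff_algebraMap_injective _ _).mpr ginj
    have h4 := _root_.trdeg_add_eq k (MvPolynomial (Fin s) k) (A := R)
    have h5 : Algebra.trdeg (MvPolynomial (Fin s) k) R = 0 := by
      exact trdeg_eq_zero
    rw [h5, add_zero, MvPolynomial.trdeg_of_isDomain] at h4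
    rw [← h4] at h3
    simp only [Cardinal.mk_fintype, Cardinal.lift_natCast, Fintype.card_fin] at h3
    exact_mod_cast h3
  refine le_trans ?_ h1
  simp only [Nat.card_eq_fintype_card, Fintype.card_fin, zero_add]
  exact_mod_cast h2

end CIT85
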