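import Mathlib

set_option autoImplicit false

namespace CIT85

open MvPolynomial Module

/-- A subset of `ℚ^ι` contained in a proper hypersurface. -/
def Thin {ι : Type} (S : Set (ι → ℚ)) : Prop :=
  ∃ Q : MvPolynomial ι ℚ, Q ≠ 0 ∧ ∀ ω ∈ S, eval ω Q = 0

lemma Thin.mono {ι : Type} {S T : Set (ι → ℚ)} (h : S ⊆ T) (hT : Thin T) : Thin S := by
  obtain ⟨Q, hQ, h0⟩ := hT
  exact ⟨Q, hQ, fun ω hω => h0 ω (h hω)⟩

lemma Thin.iUnion {ι : Type} {τ : Type} [Finite τ] {S : τ → Set (ι → ℚ)}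
    (h : ∀ t, Thin (S t)) : Thin (⋃ t, S t) := by
  cases nonempty_fintype τ
  choose Q hQ h0 using h
  refine ⟨∏ t, Q t, Finset.prod_ne_zero_iff.mpr fun t _ => hQ t, ?_⟩
  intro ω hω
  obtain ⟨t, ht⟩ := Set.mem_iUnion.mp hω
  rw [map_prod]
  exact Finset.prod_eq_zero (Finset.mem_univ t) (h0 t ω ht)

lemma thin_param {ι κ : Type} [Fintype ι] [Fintype κ] (h : Fintype.card κ < Fintype.card ι)
    (Φ : ι → MvPolynomial κ ℚ) :
    Thin {ω : ι → ℚ | ∃ s : κ → ℚ, ∀ i, ω i = eval s (Φ i)} := by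
  have hna : ¬ AlgebraicIndependent ℚ Φ := by
    intro hal
    have h1 := hal.lift_cardinalMk_le_trdeg
    rw [MvPolynomial.trdeg_of_isDomain] at h1
    simp only [Cardinal.mk_fintype, Cardinal.lift_natCast] at h1
    have h2 : Fintype.card ι ≤ Fintype.card κ := by exact_mod_cast h1
    omega
  rw [algebraicIndependent_iff] at hna
  push Not at hna
  obtain ⟨Q, hQ, hQ0⟩ := hna
  refine ⟨Q, hQ0, ?_⟩
  rintro ω ⟨s, hs⟩
  have h1 : eval s (aeval Φ Q) = eval ω Q := by
    have h2 : ω = fun i => eval s (Φ i) := funext hs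
    rw [h2, MvPolynomial.aeval_def, MvPolynomial.eval_eval₂]
    rw [← MvPolynomial.coe_eval₂Hom]
    congr 1
    ext i
    · simp
    · simp
  rw [← h1, hQ, map_zero]

lemma Thin.preimage {ι κ : Type} [Fintype ι] [Fintype κ] {S : Set (κ → ℚ)} (hS : Thin S)
    (L : κ → ι → ℚ) (hL : LinearIndependent ℚ L) :
    Thin {ω : ι → ℚ | (fun k => ∑ x, L k x * ω x) ∈ S} := by
  classical
  obtain ⟨Q, hQ, h0⟩ := hS
  let Ψ : κ → MvPolynomial ι ℚ := fun k => ∑ x, C (L k x) * X x
  have hev : ∀ ω : ι → ℚ, eval ω (aeval Ψ Q) = eval (fun k => ∑ x, L k x * ω x) Q := by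
    intro ω
    rw [MvPolynomial.aeval_def, MvPolynomial.eval_eval₂, ← MvPolynomial.coe_eval₂Hom]
    congr 1
    ext i
    · simp
    · simp [Ψ]
  refine ⟨aeval Ψ Q, ?_, fun ω hω => by rw [hev]; exact h0 _ hω⟩
  intro hzero
  -- surjectivity
  let M : Matrix κ ι ℚ := Matrix.of L
  have hsurj : Function.Surjective M.mulVecLin := by
    rw [← LinearMap.range_eq_top]
    apply Submodule.eq_top_of_finrank_eq
    have h1 : M.rank = Fintype.card κ := LinearIndependent.rank_matrix (M := M) hL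
    rw [Matrix.rank] at h1
    rw [h1]
    simp
  apply hQ
  apply MvPolynomial.funext
  intro η
  obtain ⟨ω, hω⟩ := hsurj η
  have h2 := hev ω
  rw [hzero, map_zero] at h2
  have h3 : (fun k => ∑ x, L k x * ω x) = η := by
    rw [← hω]
    ext k
    simp [M, Matrix.mulVec, dotProduct]
  rw [h3] at h2
  rw [← h2, map_zero]

/-- A subspace of `ℚ^n`, `n = c + e`, of dimension at most `c` is contained in the graph of a
linear map expressing `e` of the coordinates by the other `c` ones. -/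
lemma exists_graph {c e : ℕ} (W : Submodule ℚ (Fin (c + e) → ℚ)) (hW : finrank ℚ W ≤ c) :
    ∃ (σ : Fin c ⊕ Fin e ≃ Fin (c + e)) (B : Fin e → Fin c → ℚ),
      ∀ w ∈ W, ∀ b, w (σ (Sum.inr b)) = ∑ a, B b a * w (σ (Sum.inl a)) := by
  classical
  -- coordinate functionals
  let f : Fin (c + e) → Dual ℚ W := fun j => (LinearMap.proj j).comp W.subtype
  obtain ⟨s, -, -, hspan, hli⟩ := exists_linearIndepOn_extension (K := ℚ) (v := f) (s := ∅)
    (t := Set.univ) (by simp) (Set.empty_subset _)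
  have hcard : s.toFinset.card ≤ c := by
    have h1 : Fintype.card s ≤ finrank ℚ (Dual ℚ W) := hli.fintype_card_le_finrank
    rw [Subspace.dual_finrank_eq] at h1
    rw [Set.toFinset_card]
    exact h1.trans hW
  obtain ⟨J, hJs, hJc⟩ := Finset.exists_superset_card_eq hcard (by simp)
  have e1 : Fin c ≃ {x // x ∈ J} := (Fintype.equivFinOfCardEq (by simp [hJc])).symm
  have e2 : Fin e ≃ {x // ¬ x ∈ J} := (Fintype.equivFinOfCardEq (by
    rw [Fintype.card_subtype_compl]; simp [hJc])).symm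
  let σ : Fin c ⊕ Fin e ≃ Fin (c + e) := (Equiv.sumCongr e1 e2).trans (Equiv.sumCompl _)
  have hσ : Set.range (fun a : Fin c => f (σ (Sum.inl a))) = f '' (J : Set (Fin (c + e))) := by
    ext y
    constructor
    · rintro ⟨a, rfl⟩
      exact ⟨σ (Sum.inl a), by simp [σ], rfl⟩
    · rintro ⟨j, hj, rfl⟩
      exact ⟨e1.symm ⟨j, hj⟩, by simp [σ]⟩
  have hmem : ∀ b : Fin e, ∃ B : Fin c → ℚ, ∑ a, B a • f (σ (Sum.inl a)) = f (σ (Sum.inr b)) := by
    intro b
    rw [← Submodule.mem_span_range_iff_exists_fun, hσ]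
    have h1 : f (σ (Sum.inr b)) ∈ f '' Set.univ := ⟨_, trivial, rfl⟩
    refine Submodule.span_mono (Set.image_mono ?_) (hspan h1)
    intro x hx
    exact hJs (by simpa using hx)
  choose B hB using hmem
  refine ⟨σ, B, fun w hw b => ?_⟩
  have := congrArg (fun φ : Dual ℚ W => φ ⟨w, hw⟩) (hB b)
  simpa [f] using this.symm

end CIT85
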