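import Mathlib
import Pool.Agent.Lib.MP_c95b3b_ag_h85.Thin

set_option autoImplicit false

namespace CIT85

open MvPolynomial Module

/-- The counting lemma: given linear forms `L i k` in `ω` (all independent), the set of `ω` for
which there are a subspace `W` of `ℚ^(c+e)` of dimension at most `c` and vectors `u i` in a
translate of `W` (with translation vectors depending on `ρ` parameters) such that
`L i k ω = δ i k · u i + β i k` for `i < m`, `k < c + 1`, is thin as soon as `c * e + ρ < m`. -/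
theorem thin_core {ι : Type} [Fintype ι] (c e m ρ : ℕ) (hm : c * e + ρ < m)
    (L : Fin m → Fin (c + 1) → ι → ℚ)
    (hL : LinearIndependent ℚ (fun p : Fin m × Fin (c + 1) => L p.1 p.2))
    (δ : Fin m → Fin (c + 1) → Fin (c + e) → ℚ) (β : Fin m → Fin (c + 1) → ℚ)
    (G : Fin ρ → Fin m → Fin (c + e) → ℚ) :
    Thin {ω : ι → ℚ | ∃ W : Submodule ℚ (Fin (c + e) → ℚ), finrank ℚ W ≤ c ∧
      ∃ q : Fin ρ → ℚ, ∃ u : Fin m → Fin (c + e) → ℚ, (∀ i, u i - ∑ l, q l • G l i ∈ W) ∧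
        ∀ i k, ∑ x, L i k x * ω x = ∑ j, δ i k j * u i j + β i k} := by
  classical
  let κ := (Fin m × Fin c) ⊕ (Fin e × Fin c) ⊕ Fin ρ
  have hcard : Fintype.card κ < Fintype.card (Fin m × Fin (c + 1)) := by
    simp only [κ, Fintype.card_sum, Fintype.card_prod, Fintype.card_fin]
    have h1 : e * c = c * e := Nat.mul_comm _ _
    have h2 : m * (c + 1) = m * c + m := by ring
    omega
  let U : (Fin c ⊕ Fin e ≃ Fin (c + e)) → Fin m → Fin (c + e) → MvPolynomial κ ℚ :=
    fun σ i j => ∑ l, X (Sum.inr (Sum.inr l)) * C (G l i j) +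
      Sum.elim (fun a => X (Sum.inl (i, a)))
        (fun b => ∑ a, X (Sum.inr (Sum.inl (b, a))) * X (Sum.inl (i, a))) (σ.symm j)
  let Φ : (Fin c ⊕ Fin e ≃ Fin (c + e)) → Fin m × Fin (c + 1) → MvPolynomial κ ℚ :=
    fun σ p => ∑ j, C (δ p.1 p.2 j) * U σ p.1 j + C (β p.1 p.2)
  have hthin : Thin (⋃ σ, {η : Fin m × Fin (c + 1) → ℚ |
      ∃ s : κ → ℚ, ∀ p, η p = eval s (Φ σ p)}) :=
    Thin.iUnion fun σ => thin_param hcard (Φ σ)
  refine Thin.mono ?_ (hthin.preimage (fun p : Fin m × Fin (c + 1) => L p.1 p.2) hL)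
  rintro ω ⟨W, hW, q, u, hu, hLu⟩
  obtain ⟨σ, B, hB⟩ := exists_graph W hW
  refine Set.mem_iUnion.mpr ⟨σ, ?_⟩
  let s : κ → ℚ := Sum.elim
    (fun p => (u p.1 - ∑ l, q l • G l p.1) (σ (Sum.inl p.2)))
    (Sum.elim (fun p => B p.1 p.2) q)
  refine ⟨s, ?_⟩
  have hU : ∀ i j, eval s (U σ i j) = u i j := by
    intro i j
    obtain ⟨y, rfl⟩ := σ.surjective j
    have h1 : (∑ l, q l • G l i) (σ y) = ∑ l, q l * G l i (σ y) := by simp
    rcases y with a | b
    · simp only [U, map_add, map_sum, map_mul, eval_X, eval_C, Equiv.symm_apply_apply,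
        Sum.elim_inl, s, Sum.elim_inr, Pi.sub_apply, h1]
      ring
    · have h2 := hB _ (hu i) b
      simp only [U, map_add, map_sum, map_mul, eval_X, eval_C, Equiv.symm_apply_apply,
        Sum.elim_inl, s, Sum.elim_inr]
      rw [← h2, Pi.sub_apply, h1]
      ring
  rintro ⟨i, k⟩
  simp only [Φ, map_add, map_sum, map_mul, eval_C, hU]
  exact hLu i k

end CIT85
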