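import Mathlib

set_option autoImplicit false

namespace CIT85

open MvPolynomial

lemma exists_nat_point {ι : Type} (Q : MvPolynomial ι ℚ) (hQ : Q ≠ 0) :
    ∃ ω : ι → ℕ, eval (fun i => (ω i : ℚ)) Q ≠ 0 := by
  by_contra hcon
  push Not at hcon
  apply hQ
  refine MvPolynomial.funext_set (fun _ : ι => Set.range (fun n : ℕ => (n : ℚ)))
    (fun _ => Set.infinite_range_of_injective Nat.cast_injective) ?_
  intro x hx
  choose ω hω using fun i => hx i trivial
  have h1 : x = fun i => (ω i : ℚ) := by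
    ext i; exact (hω i).symm
  rw [h1, hcon ω, map_zero]

/-- Every nonzero polynomial in the `p`-adic valuations of integers `c s` is nonzero on a full
residue class. -/
lemma residue_class {m : ℕ} {ι : Type} [Fintype ι] (p : Fin m → ℕ) (hp : ∀ i, (p i).Prime)
    (hinj : Function.Injective p) (hm : 0 < m)
    (Q : MvPolynomial (Fin m × ι) ℚ) (hQ : Q ≠ 0) :
    ∃ (N : ℕ) (c₀ : ι → ℤ), 0 < N ∧ ∀ c : ι → ℤ, (∀ s, c s ≡ c₀ s [ZMOD N]) →
      (∀ s, c s ≠ 0) ∧
        eval (fun s : Fin m × ι => (padicValRat (p s.1) ((c s.2 : ℤ) : ℚ) : ℚ)) Q ≠ 0 := by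
  classical
  obtain ⟨ω, hω⟩ := exists_nat_point Q hQ
  let M : ℕ := (Finset.univ.sup ω) + 1
  have hM : ∀ s, ω s < M := fun s => Nat.lt_succ_of_le (Finset.le_sup (Finset.mem_univ s))
  let N : ℕ := ∏ i, p i ^ M
  let c₀ : ι → ℤ := fun s => ((∏ i, p i ^ ω (i, s) : ℕ) : ℤ)
  have hppos : ∀ i, 0 < p i := fun i => (hp i).pos
  have hval₀ : ∀ i s, padicValNat (p i) (∏ i', p i' ^ ω (i', s)) = ω (i, s) := by
    intro i s
    have := Fact.mk (hp i)
    rw [← Finset.mul_prod_erase Finset.univ _ (Finset.mem_univ i)]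
    have hne : ∏ x ∈ Finset.univ.erase i, p x ^ ω (x, s) ≠ 0 :=
      Finset.prod_ne_zero_iff.mpr fun x _ => pow_ne_zero _ (hppos x).ne'
    rw [padicValNat.mul (pow_ne_zero _ (hppos i).ne') hne, padicValNat.prime_pow]
    have h0 : padicValNat (p i) (∏ x ∈ Finset.univ.erase i, p x ^ ω (x, s)) = 0 := by
      apply padicValNat.eq_zero_of_not_dvd
      intro hdvd
      obtain ⟨x, hx, hdx⟩ := (Prime.dvd_finsetProd_iff (hp i).prime _).mp hdvd
      have h1 := (hp i).dvd_of_dvd_pow hdx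
      have h2 := (Nat.prime_dvd_prime_iff_eq (hp i) (hp x)).mp h1
      exact Finset.ne_of_mem_erase hx (hinj h2).symm
    rw [h0, add_zero]
  refine ⟨N, c₀, Finset.prod_pos fun i _ => pow_pos (hppos i) _, ?_⟩
  intro c hc
  have key : ∀ i s, ((p i : ℤ) ^ ω (i, s) ∣ c s) ∧ ¬ ((p i : ℤ) ^ (ω (i, s) + 1) ∣ c s) := by
    intro i s
    have := Fact.mk (hp i)
    have hpN : (p i : ℤ) ^ (ω (i, s) + 1) ∣ (N : ℤ) := by
      have h1 : p i ^ M ∣ N := Finset.dvd_prod_of_mem _ (Finset.mem_univ i)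
      have h2 : p i ^ (ω (i, s) + 1) ∣ p i ^ M := pow_dvd_pow _ (hM (i, s))
      exact_mod_cast h2.trans h1
    have hd : (p i : ℤ) ^ (ω (i, s) + 1) ∣ c₀ s - c s := hpN.trans (hc s).dvd
    have hc₀ : padicValInt (p i) (c₀ s) = ω (i, s) := by
      simp only [c₀, padicValInt.of_nat]
      exact hval₀ i s
    have hc₀0 : c₀ s ≠ 0 := by
      simp only [c₀]
      exact_mod_cast (Finset.prod_ne_zero_iff.mpr fun x _ => pow_ne_zero _ (hppos x).ne')
    have h1 : (p i : ℤ) ^ ω (i, s) ∣ c₀ s := by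
      rw [padicValInt_dvd_iff]; right; rw [hc₀]
    have h2 : ¬ (p i : ℤ) ^ (ω (i, s) + 1) ∣ c₀ s := by
      rw [padicValInt_dvd_iff, hc₀]
      push Not
      exact ⟨hc₀0, Nat.lt_succ_self _⟩
    refine ⟨?_, fun h3 => h2 ?_⟩
    · have h4 : (p i : ℤ) ^ ω (i, s) ∣ c₀ s - c s := (pow_dvd_pow _ (Nat.le_succ _)).trans hd
      have h5 := dvd_sub h1 h4
      simpa using h5
    · have h5 := dvd_add hd h3
      simpa using h5
  have hval : ∀ i s, c s ≠ 0 → padicValRat (p i) ((c s : ℤ) : ℚ) = ω (i, s) := by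
    intro i s hs
    have := Fact.mk (hp i)
    rw [padicValRat.of_int]
    obtain ⟨h1, h2⟩ := key i s
    rw [padicValInt_dvd_iff] at h1 h2
    have h3 := h1.resolve_left hs
    push Not at h2
    have h4 := h2.2
    have : padicValInt (p i) (c s) = ω (i, s) := by omega
    exact_mod_cast this
  have hne : ∀ s, c s ≠ 0 := by
    intro s hs
    exact (key ⟨0, hm⟩ s).2 (hs ▸ dvd_zero _)
  refine ⟨hne, ?_⟩
  have h1 : (fun s : Fin m × ι => (padicValRat (p s.1) ((c s.2 : ℤ) : ℚ) : ℚ)) =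
      fun s => (ω s : ℚ) := by
    ext ⟨i, s⟩
    simp only [hval i s (hne s)]
    norm_cast
  rw [h1]
  exact hω

lemma val_prod {m : ℕ} (p : Fin m → ℕ) (hp : ∀ i, (p i).Prime)
    (hinj : Function.Injective p) (ω : Fin m → ℤ) (i : Fin m) :
    padicValRat (p i) (∏ i', (p i' : ℚ) ^ ω i') = ω i := by
  classical
  have := Fact.mk (hp i)
  have hne : ∀ x, (p x : ℚ) ≠ 0 := fun x => by exact_mod_cast (hp x).ne_zero
  have hgen : ∀ s : Finset (Fin m), padicValRat (p i) (∏ i' ∈ s, (p i' : ℚ) ^ ω i') =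
      ∑ i' ∈ s, if i' = i then ω i' else 0 := by
    intro s
    induction s using Finset.induction_on with
    | empty => simp
    | insert a s ha ih =>
      rw [Finset.prod_insert ha, Finset.sum_insert ha,
        padicValRat.mul (zpow_ne_zero _ (hne a))
          (Finset.prod_ne_zero_iff.mpr fun x _ => zpow_ne_zero _ (hne x)), ih,
        padicValRat.zpow]
      congr 1
      split_ifs with h
      · subst h
        rw [padicValRat.self (hp a).one_lt, mul_one]
      · have : padicValRat (p i) (p a : ℚ) = 0 := by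
          rw [padicValRat.of_nat]
          have : padicValNat (p i) (p a) = 0 := by
            apply padicValNat.eq_zero_of_not_dvd
            intro hd
            exact h (hinj ((Nat.prime_dvd_prime_iff_eq (hp i) (hp a)).mp hd)).symm
          exact_mod_cast this
        rw [this, mul_zero]
  rw [hgen]
  simp

lemma aux_count (F D s n T : ℕ) (hs : s = 2 * T + 1) (h : F * s ≤ D * s ^ n) :
    F ≤ D * 2 ^ n * (T + 1) ^ (n - 1) := by
  rcases Nat.eq_zero_or_pos n with hn | hn
  · subst hn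
    have h2 : F ≤ D := by
      calc F ≤ F * s := Nat.le_mul_of_pos_right _ (by omega)
        _ ≤ D * s ^ 0 := h
        _ = D := by simp
    simpa using h2
  · have h3 : F ≤ D * s ^ (n - 1) := by
      have h4 : s ^ n = s ^ (n - 1) * s := by
        rw [← pow_succ]; congr 1; omega
      rw [h4, ← mul_assoc] at h
      exact Nat.le_of_mul_le_mul_right h (by omega)
    calc F ≤ D * s ^ (n - 1) := h3
      _ ≤ D * (2 * (T + 1)) ^ (n - 1) := by
          gcongr; omega
      _ = D * 2 ^ (n - 1) * (T + 1) ^ (n - 1) := by rw [mul_pow]; ring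
      _ ≤ D * 2 ^ n * (T + 1) ^ (n - 1) := by
          gcongr
          · norm_num
          · omega

/-- Number of zeros of a nonzero polynomial in a box. -/
lemma box_count {ι : Type} [Fintype ι] (Q : MvPolynomial ι ℚ) (hQ : Q ≠ 0) :
    ∃ C : ℕ, ∀ T : ℕ, Nat.card {ω : ι → ℤ // (∀ i, |ω i| ≤ T) ∧
      eval (fun i => (ω i : ℚ)) Q = 0} ≤ C * (T + 1) ^ (Fintype.card ι - 1) := by
  classical
  let n := Fintype.card ι
  let e : ι ≃ Fin n := Fintype.equivFin ι
  let q : MvPolynomial (Fin n) ℚ := rename e Q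
  have hq : q ≠ 0 := fun h => hQ (rename_injective _ e.injective (by simpa using h))
  refine ⟨q.totalDegree * 2 ^ n, fun T => ?_⟩
  let S : Finset ℚ := (Finset.Icc (-(T : ℤ)) T).image (fun z : ℤ => (z : ℚ))
  have hS : S.card = 2 * T + 1 := by
    rw [Finset.card_image_of_injective _ Int.cast_injective, Int.card_Icc]
    omega
  let F : Finset (Fin n → ℚ) := {f ∈ Fintype.piFinset fun _ => S | eval f q = 0}
  have hsz := schwartz_zippel_totalDegree hq S
  have hF : F.card * S.card ≤ q.totalDegree * S.card ^ n := by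
    have hSpos : (0 : ℚ≥0) < S.card := by rw [hS]; positivity
    have h1 : ((F.card : ℚ≥0)) / (S.card : ℚ≥0) ^ n ≤ q.totalDegree / S.card := hsz
    rw [div_le_div_iff₀ (pow_pos hSpos _) hSpos] at h1
    exact_mod_cast h1
  have hF2 : F.card ≤ q.totalDegree * 2 ^ n * (T + 1) ^ (n - 1) :=
    aux_count _ _ _ _ _ hS hF
  refine le_trans ?_ hF2
  have hmap : ∀ ω : {ω : ι → ℤ // (∀ i, |ω i| ≤ T) ∧ eval (fun i => (ω i : ℚ)) Q = 0},
      (fun j => (ω.1 (e.symm j) : ℚ)) ∈ F := by
    rintro ⟨ω, hω, h0⟩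
    simp only [F, Finset.mem_filter, Fintype.mem_piFinset]
    refine ⟨fun j => ?_, ?_⟩
    · exact Finset.mem_image.mpr ⟨_, Finset.mem_Icc.mpr (abs_le.mp (hω _)), rfl⟩
    · simp only [q, eval_rename]
      rw [← h0]
      congr 2
      ext i
      simp
  rw [← Fintype.card_coe F, ← Nat.card_eq_fintype_card]
  exact Nat.card_le_card_of_injective (fun ω => (⟨_, hmap ω⟩ : F)) (by
    intro ω ω' h
    have h1 := congrArg Subtype.val h
    ext i
    have h2 := congrFun h1 (e i)
    simpa using h2)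

end CIT85
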