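import Mathlib

set_option autoImplicit false

namespace CIT85

open Module

/-- A tropical homomorphism: a homomorphism from the multiplicative group of the field `K` to
`(ℚ, +)` (extended in an arbitrary way to `0`) such that in any vanishing sum of nonzero terms two
different terms have the same value. -/
structure TropHom (K : Type) [Field K] where
  /-- the underlying function -/
  toFun : K → ℚ
  map_mul' : ∀ a b : K, a ≠ 0 → b ≠ 0 → toFun (a * b) = toFun a + toFun b
  two' : ∀ (ι : Type) (s : Finset ι) (t : ι → K), s.Nonempty → (∀ i ∈ s, t i ≠ 0) →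
    ∑ i ∈ s, t i = 0 → ∃ i ∈ s, ∃ j ∈ s, i ≠ j ∧ toFun (t i) = toFun (t j)

variable {K : Type} [Field K]

instance : CoeFun (TropHom K) (fun _ => K → ℚ) := ⟨TropHom.toFun⟩

namespace TropHom

variable (w : TropHom K)

lemma map_mul {a b : K} (ha : a ≠ 0) (hb : b ≠ 0) : w (a * b) = w a + w b := w.map_mul' a b ha hb

lemma map_one : w 1 = 0 := by
  have := w.map_mul (one_ne_zero (α := K)) (one_ne_zero (α := K))
  rw [mul_one] at this
  linarith

lemma map_inv {a : K} (ha : a ≠ 0) : w a⁻¹ = - w a := by
  have := w.map_mul ha (inv_ne_zero ha)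
  rw [mul_inv_cancel₀ ha, w.map_one] at this
  linarith

lemma map_div {a b : K} (ha : a ≠ 0) (hb : b ≠ 0) : w (a / b) = w a - w b := by
  rw [div_eq_mul_inv, w.map_mul ha (inv_ne_zero hb), w.map_inv hb]; ring

lemma map_pow {a : K} (ha : a ≠ 0) (n : ℕ) : w (a ^ n) = n * w a := by
  induction n with
  | zero => simp [w.map_one]
  | succ n ih => rw [pow_succ, w.map_mul (pow_ne_zero _ ha) ha, ih]; push_cast; ring

lemma map_zpow {a : K} (ha : a ≠ 0) (n : ℤ) : w (a ^ n) = n * w a := by
  cases n with
  | ofNat n => simpa using w.map_pow ha n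
  | negSucc n =>
    rw [zpow_negSucc, w.map_inv (pow_ne_zero _ ha), w.map_pow ha]
    push_cast
    ring

lemma map_prod {ι : Type} (s : Finset ι) (f : ι → K) (hf : ∀ i ∈ s, f i ≠ 0) :
    w (∏ i ∈ s, f i) = ∑ i ∈ s, w (f i) := by
  classical
  induction s using Finset.induction_on with
  | empty => simp [w.map_one]
  | insert a s ha ih =>
    rw [Finset.prod_insert ha, Finset.sum_insert ha,
      w.map_mul (hf a (Finset.mem_insert_self _ _))
        (Finset.prod_ne_zero_iff.mpr fun i hi => hf i (Finset.mem_insert_of_mem hi)),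
      ih (fun i hi => hf i (Finset.mem_insert_of_mem hi))]

lemma map_neg_one : w (-1) = 0 := by
  have := w.map_mul (a := -1) (b := -1) (by simp) (by simp)
  have h1 : (-1 : K) * (-1) = 1 := by ring
  rw [h1, w.map_one] at this
  linarith

end TropHom

/-- Existence of a `p`-adic tropical homomorphism on any field of characteristic `0`. -/
theorem exists_tropHom [CharZero K] (p : ℕ) (hp : p.Prime) :
    ∃ w : TropHom K, w (p : K) = 1 ∧ ∀ m : ℤ, ¬ (p : ℤ) ∣ m → w (m : K) = 0 := by
  classical
  -- the valuation ring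
  let A : Subring K := (Int.castRingHom K).range
  have hpA : (p : K) ∈ A := ⟨p, by simp⟩
  let I : Ideal A := Ideal.span {⟨(p : K), hpA⟩}
  have hI : I ≠ ⊤ := by
    intro h
    rw [Ideal.eq_top_iff_one, Ideal.mem_span_singleton] at h
    obtain ⟨⟨c, ⟨z, hz⟩⟩, hc⟩ := h
    have h1 : (1 : K) = (p : K) * c := by
      have := congrArg Subtype.val hc
      simpa using this
    rw [← hz] at h1
    have h2 : ((1 : ℤ) : K) = (((p : ℤ) * z : ℤ) : K) := by push_cast; simpa using h1
    have h3 : (1 : ℤ) = (p : ℤ) * z := by exact_mod_cast h2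
    have h4 : (p : ℤ) ∣ 1 := ⟨z, h3⟩
    have h5 := Int.natAbs_dvd_natAbs.mpr h4
    simp at h5
    exact hp.one_lt.ne' h5
  obtain ⟨B, hAB, hIB⟩ := Ideal.image_subset_nonunits_valuationSubring I hI
  have hpB : (p : K) ∈ B.nonunits := hIB ⟨⟨(p : K), hpA⟩, Ideal.subset_span rfl, rfl⟩
  have hvp : B.valuation (p : K) < 1 := by
    rwa [ValuationSubring.mem_nonunits_iff] at hpB
  have hint : ∀ m : ℤ, B.valuation (m : K) ≤ 1 := by
    intro m
    rw [ValuationSubring.valuation_le_one_iff]
    exact hAB ⟨m, by simp⟩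
  have hunit : ∀ m : ℤ, ¬ (p : ℤ) ∣ m → B.valuation (m : K) = 1 := by
    intro m hm
    refine le_antisymm (hint m) ?_
    by_contra hlt
    push Not at hlt
    have hcop : IsCoprime (p : ℤ) m := by
      rw [Int.isCoprime_iff_gcd_eq_one]
      have := (Nat.Prime.coprime_iff_not_dvd hp (n := m.natAbs)).mpr
        (fun h => hm (Int.natCast_dvd.mpr h))
      simpa [Int.gcd] using this
    obtain ⟨a, b, hab⟩ := hcop
    have h1 : (a : K) * (p : K) + (b : K) * (m : K) = 1 := by exact_mod_cast hab
    have h2 : B.valuation (1 : K) < 1 := by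
      rw [← h1]
      refine B.valuation.map_add_lt ?_ ?_
      · rw [_root_.map_mul]
        exact mul_lt_one_of_nonneg_of_lt_one_right (hint a) zero_le hvp
      · rw [_root_.map_mul]
        exact mul_lt_one_of_nonneg_of_lt_one_right (hint b) zero_le hlt
    simp at h2
  -- the group of values
  have hp0 : (p : K) ≠ 0 := by exact_mod_cast hp.ne_zero
  let G := Additive (B.ValueGroup)ˣ
  let v : K → G := fun a => if h : a = 0 then 0 else Additive.ofMul (Units.mk0 (B.valuation a)
    (by simpa using h))
  have vmul : ∀ a b : K, a ≠ 0 → b ≠ 0 → v (a * b) = v a + v b := by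
    intro a b ha hb
    have hab : a * b ≠ 0 := mul_ne_zero ha hb
    simp only [v, ha, hb, hab, dif_neg, not_false_eq_true]
    rw [← ofMul_mul]
    congr 1
    ext
    simp
  have vinj : ∀ a b : K, a ≠ 0 → b ≠ 0 → B.valuation a = B.valuation b → v a = v b := by
    intro a b ha hb h
    simp only [v, ha, hb, dif_neg, not_false_eq_true]
    congr 1
    ext
    simpa using h
  -- the functional
  have htf : ∀ z : ℤ, z • v (p : K) = 0 → z = 0 := by
    intro z hz
    simp only [v, hp0, dif_neg, not_false_eq_true] at hz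
    rw [← ofMul_zpow, ofMul_eq_zero] at hz
    have h1 := congrArg (fun u : (B.ValueGroup)ˣ => (u : B.ValueGroup)) hz
    simp only [Units.val_zpow_eq_zpow_val, Units.val_mk0, Units.val_one] at h1
    have hvp0 : B.valuation (p : K) ≠ 0 := by simpa using hp0
    exact (zpow_eq_one_iff_right₀ zero_le hvp.ne).mp h1
  let i : ℤ →ₗ[ℤ] G := LinearMap.toSpanSingleton ℤ G (v (p : K))
  have hi : Function.Injective i := by
    rw [← LinearMap.ker_eq_bot, LinearMap.ker_eq_bot']
    intro z hz
    exact htf z (by simpa [i] using hz)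
  let g : ℤ →ₗ[ℤ] ℚ := LinearMap.toSpanSingleton ℤ ℚ 1
  have hinj : Module.Injective ℤ ℚ := (Module.Baer.of_divisible ℚ).injective
  obtain ⟨φ, hφ⟩ := hinj.out i hi g
  refine ⟨⟨fun a => φ (v a), ?_, ?_⟩, ?_, ?_⟩
  · intro a b ha hb
    rw [vmul a b ha hb, _root_.map_add]
  · intro ι s t hs ht hsum
    by_contra hcon
    push Not at hcon
    -- pick the term with the largest valuation
    obtain ⟨j, hj, hmax⟩ := s.exists_max_image (fun i => B.valuation (t i)) hs
    have hlt : ∀ i ∈ s.erase j, B.valuation (t i) < B.valuation (t j) := by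
      intro i hi'
      have hi'' := Finset.mem_of_mem_erase hi'
      refine lt_of_le_of_ne (hmax i hi'') ?_
      intro heq
      exact hcon i hi'' j hj (Finset.ne_of_mem_erase hi')
        (by rw [vinj _ _ (ht i hi'') (ht j hj) heq])
    have h1 : t j = - ∑ i ∈ s.erase j, t i := by
      rw [← Finset.add_sum_erase s t hj] at hsum
      exact eq_neg_of_add_eq_zero_left hsum
    have h2 : B.valuation (∑ i ∈ s.erase j, t i) < B.valuation (t j) :=
      Valuation.map_sum_lt _ (by simpa using ht j hj) hlt
    rw [h1, Valuation.map_neg] at h2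
    exact lt_irrefl _ h2
  · have := hφ 1
    simpa [i, g] using this
  · intro m hm
    have hm0 : (m : K) ≠ 0 := by
      intro h
      have : m = 0 := by exact_mod_cast h
      exact hm (this ▸ dvd_zero _)
    have : v (m : K) = v 1 := vinj _ _ hm0 one_ne_zero (by rw [hunit m hm]; simp)
    have h1 : v (1 : K) = 0 := by
      have := vmul 1 1 one_ne_zero one_ne_zero
      rw [mul_one] at this
      simpa using this
    simp [this, h1]

end CIT85
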