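import Mathlib
import Pool.Agent.Lib.MP_c95b3b_ag_h85.Core
import Pool.Agent.Lib.MP_c95b3b_ag_h85.Trop

set_option autoImplicit false

namespace CIT85

open Module

variable {K : Type} [Field K] [CharZero K]

lemma tropHom_int (w : TropHom K) (p : ℕ) (hp : p.Prime) (h1 : w (p : K) = 1)
    (h0 : ∀ m : ℤ, ¬ (p : ℤ) ∣ m → w (m : K) = 0) (z : ℤ) (hz : z ≠ 0) :
    w (z : K) = padicValInt p z := by
  haveI := Fact.mk hp
  obtain ⟨k, m, hm, hk⟩ : ∃ (k : ℕ) (m : ℤ), ¬ (p : ℤ) ∣ m ∧ z = (p : ℤ) ^ k * m := by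
    have hfin : FiniteMultiplicity (p : ℤ) z :=
      Int.finiteMultiplicity_iff.mpr ⟨by simpa using hp.ne_one, hz⟩
    obtain ⟨m, hm1, hm2⟩ := hfin.exists_eq_pow_mul_and_not_dvd
    exact ⟨_, m, hm2, hm1⟩
  have hm0 : m ≠ 0 := fun h => hm (h ▸ dvd_zero _)
  have hp0 : (p : ℤ) ≠ 0 := by exact_mod_cast hp.ne_zero
  have hpK : (p : K) ≠ 0 := by exact_mod_cast hp.ne_zero
  have h2 : padicValInt p z = k := by
    rw [hk, padicValInt.mul (pow_ne_zero _ hp0) hm0, padicValInt.eq_zero_of_not_dvd hm]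
    simp [padicValInt, Int.natAbs_pow]
  rw [h2, hk]
  push_cast
  rw [w.map_mul (pow_ne_zero _ hpK) (by exact_mod_cast hm0), w.map_pow hpK, h1, h0 m hm]
  ring

lemma tropHom_rat (w : TropHom K) (p : ℕ) (hp : p.Prime) (h1 : w (p : K) = 1)
    (h0 : ∀ m : ℤ, ¬ (p : ℤ) ∣ m → w (m : K) = 0) (q : ℚ) (hq : q ≠ 0) :
    w (q : K) = padicValRat p q := by
  have hn : q.num ≠ 0 := Rat.num_ne_zero.mpr hq
  have hd : (q.den : ℤ) ≠ 0 := by exact_mod_cast q.den_nz
  have hq' : (q : K) = (q.num : K) / ((q.den : ℤ) : K) := by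
    rw [Rat.cast_def]; push_cast; rfl
  rw [hq', w.map_div (by exact_mod_cast hn) (by exact_mod_cast hd),
    tropHom_int w p hp h1 h0 _ hn, tropHom_int w p hp h1 h0 _ hd]
  rw [padicValRat]
  simp [padicValInt]

/-- A family of `p`-adic tropical homomorphisms restricting to the `p`-adic valuations on `ℚ`. -/
theorem exists_padic_tropHom (p : ℕ) (hp : p.Prime) :
    ∃ w : TropHom K, ∀ q : ℚ, q ≠ 0 → w (q : K) = padicValRat p q := by
  obtain ⟨w, h1, h0⟩ := exists_tropHom (K := K) p hp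
  exact ⟨w, tropHom_rat w p hp h1 h0⟩

/-- The annihilator in `ℚ^n` of a subgroup `Λ` of `ℤ^n`. -/
def ann {n : ℕ} (Λ : Submodule ℤ (Fin n → ℤ)) : Submodule ℚ (Fin n → ℚ) where
  carrier := {u | ∀ a ∈ Λ, ∑ j, (a j : ℚ) * u j = 0}
  zero_mem' := by intro a _; simp
  add_mem' := by
    intro u v hu hv a ha
    simp only [Pi.add_apply, mul_add, Finset.sum_add_distrib, hu a ha, hv a ha, add_zero]
  smul_mem' := by
    intro q u hu a ha
    have : ∑ j, (a j : ℚ) * (q • u) j = q * ∑ j, (a j : ℚ) * u j := by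
      rw [Finset.mul_sum]
      refine Finset.sum_congr rfl fun j _ => ?_
      simp only [Pi.smul_apply, smul_eq_mul]; ring
    rw [this, hu a ha, mul_zero]

lemma finrank_ann {n : ℕ} (Λ : Submodule ℤ (Fin n → ℤ)) :
    finrank ℚ (ann Λ) + finrank ℤ Λ ≤ n := by
  classical
  let b := Module.Free.chooseBasis ℤ Λ
  let ι := Module.Free.ChooseBasisIndex ℤ Λ
  have hcard : finrank ℤ Λ = Fintype.card ι := Module.finrank_eq_card_chooseBasisIndex ℤ Λ
  let M : Matrix ι (Fin n) ℚ := Matrix.of fun i j => (((b i : Fin n → ℤ) j : ℤ) : ℚ)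
  have hli : LinearIndependent ℚ M.row := by
    have h1 : LinearIndependent ℤ (fun i => (b i : Fin n → ℤ)) :=
      b.linearIndependent.map' Λ.subtype (Submodule.ker_subtype Λ)
    let g : (Fin n → ℤ) →ₗ[ℤ] (Fin n → ℚ) :=
      { toFun := fun a j => (a j : ℚ)
        map_add' := by intro a a'; ext j; simp
        map_smul' := by intro z a; ext j; simp }
    have hg : LinearMap.ker g = ⊥ := by
      rw [LinearMap.ker_eq_bot']
      intro a ha
      ext j
      have := congrFun ha j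
      simpa [g] using this
    have h2 : LinearIndependent ℤ (fun i => g (b i : Fin n → ℤ)) := h1.map' g hg
    have h3 := (LinearIndependent.iff_fractionRing (R := ℤ) (K := ℚ)).mp h2
    exact h3
  have hrank : M.rank = Fintype.card ι := hli.rank_matrix
  have hle : ann Λ ≤ LinearMap.ker M.mulVecLin := by
    intro u hu
    rw [LinearMap.mem_ker]
    ext i
    simpa [M, Matrix.mulVec, dotProduct] using hu (b i) (b i).2
  have h4 := LinearMap.finrank_range_add_finrank_ker M.mulVecLin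
  rw [Matrix.rank] at hrank
  have h5 := Submodule.finrank_mono hle
  simp only [Module.finrank_pi, Fintype.card_fin] at h4
  omega

end CIT85
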