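import Mathlib
import Pool.Agent.Lib.MP_c95b3b_ag_h85.Padic

set_option autoImplicit false

namespace CIT85

open MvPolynomial Module

lemma tropHom_monomial {K : Type} [Field K] (w : TropHom K) {n : ℕ} (x : Fin n → K)
    (hx : ∀ j, x j ≠ 0) (a : Fin n → ℤ) :
    w (∏ j, x j ^ a j) = ∑ j, (a j : ℚ) * w (x j) := by
  rw [w.map_prod _ _ (fun j _ => zpow_ne_zero _ (hx j))]
  exact Finset.sum_congr rfl fun j _ => w.map_zpow (hx j) (a j)

/-- The valuation vectors of a point in a coset `h H_Λ`, where a power of `h` lies in a finitely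
generated group. -/
lemma coset_mem_ann {K : Type} [Field K] (w : TropHom K) {n ρ : ℕ} (x h : Fin n → K)
    (hx : ∀ j, x j ≠ 0) (hh : ∀ j, h j ≠ 0) (γ : Fin ρ → Fin n → K) (hγ : ∀ l j, γ l j ≠ 0)
    (N : ℕ) (hN : N ≠ 0) (z : Fin ρ → ℤ) (hz : ∀ j, h j ^ N = ∏ l, γ l j ^ z l)
    (Λ : Submodule ℤ (Fin n → ℤ)) (hΛ : ∀ a ∈ Λ, ∏ j, x j ^ a j = ∏ j, h j ^ a j) :
    (fun j => w (x j)) - ∑ l, ((z l : ℚ) / N) • (fun j => w (γ l j)) ∈ ann Λ := by
  intro a ha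
  have h1 : ∀ j, w (h j) = ∑ l, ((z l : ℚ) / N) * w (γ l j) := by
    intro j
    have h2 := congrArg w (hz j)
    rw [w.map_pow (hh j), w.map_prod _ _ (fun l _ => zpow_ne_zero _ (hγ l j))] at h2
    have h3 : ∑ l, w (γ l j ^ z l) = ∑ l, (z l : ℚ) * w (γ l j) :=
      Finset.sum_congr rfl fun l _ => w.map_zpow (hγ l j) (z l)
    rw [h3] at h2
    have hN' : (N : ℚ) ≠ 0 := by exact_mod_cast hN
    have h4 : w (h j) = (∑ l, (z l : ℚ) * w (γ l j)) / N := by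
      field_simp
      rw [mul_comm]
      exact h2
    rw [h4, Finset.sum_div]
    exact Finset.sum_congr rfl fun l _ => by ring
  have h5 := congrArg w (hΛ a ha)
  rw [tropHom_monomial w x hx, tropHom_monomial w h hh] at h5
  have h6 : ∀ j, ((fun j => w (x j)) - ∑ l, ((z l : ℚ) / N) • (fun j => w (γ l j))) j
      = w (x j) - w (h j) := by
    intro j
    simp [h1 j]
  simp only [h6, mul_sub, Finset.sum_sub_distrib]
  linarith

/-- Criterion for systems of `c + 1` equations in `c + e` unknowns. -/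
theorem system_criterion {K : Type} [Field K] (c e m ρ : ℕ) (hm : c * e + ρ < m)
    (w : Fin m → TropHom K) (A : Fin (c + 1) → Finset (Fin (c + e) → ℤ))
    (hA : ∀ k, (A k).Nonempty)
    (γ : Fin ρ → Fin (c + e) → K) (hγ : ∀ l j, γ l j ≠ 0) :
    ∃ Q : MvPolynomial (Fin m × (Σ k, A k)) ℚ, Q ≠ 0 ∧
      ∀ b : (Σ k, A k) → K, (∀ s, b s ≠ 0) →
        eval (fun s : Fin m × (Σ k, A k) => w s.1 (b s.2)) Q ≠ 0 →
        ∀ x : Fin (c + e) → K, (∀ j, x j ≠ 0) →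
          (∀ k, ∑ a : A k, b ⟨k, a⟩ * ∏ j, x j ^ (a : Fin (c + e) → ℤ) j = 0) →
        ∀ (h : Fin (c + e) → K) (N : ℕ) (z : Fin ρ → ℤ), (∀ j, h j ≠ 0) → N ≠ 0 →
          (∀ j, h j ^ N = ∏ l, γ l j ^ z l) →
        ∀ Λ : Submodule ℤ (Fin (c + e) → ℤ),
          (∀ a ∈ Λ, ∏ j, x j ^ a j = ∏ j, h j ^ a j) → finrank ℤ Λ < e := by
  classical
  -- the finite set of types
  let T := Fin m → ∀ k, {q : A k × A k // q.1 ≠ q.2}
  have hthin : Thin (⋃ τ : T, {ω : Fin m × (Σ k, A k) → ℚ |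
      ∃ W : Submodule ℚ (Fin (c + e) → ℚ), finrank ℚ W ≤ c ∧
      ∃ q : Fin ρ → ℚ, ∃ u : Fin m → Fin (c + e) → ℚ,
        (∀ i, u i - ∑ l, q l • (fun j => w i (γ l j)) ∈ W) ∧
        ∀ i k, ∑ s, (Pi.single (i, (⟨k, (τ i k).1.1⟩ : Σ k, A k)) (1 : ℚ) -
          Pi.single (i, (⟨k, (τ i k).1.2⟩ : Σ k, A k)) (1 : ℚ) :
            Fin m × (Σ k, A k) → ℚ) s * ω s =
          ∑ j, ((((τ i k).1.2 : Fin (c + e) → ℤ) j - ((τ i k).1.1 : Fin (c + e) → ℤ) j : ℤ) : ℚ)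
            * u i j + 0}) := by
    refine Thin.iUnion fun τ => ?_
    refine thin_core c e m ρ hm (fun i k => Pi.single (i, (⟨k, (τ i k).1.1⟩ : Σ k, A k)) (1 : ℚ) -
          Pi.single (i, (⟨k, (τ i k).1.2⟩ : Σ k, A k)) (1 : ℚ)) ?_
      (fun i k j => ((((τ i k).1.2 : Fin (c + e) → ℤ) j - ((τ i k).1.1 : Fin (c + e) → ℤ) j : ℤ) : ℚ))
      (fun _ _ => 0) (fun l i j => w i (γ l j))
    rw [Fintype.linearIndependent_iff]
    rintro g hg ⟨i₀, k₀⟩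
    have h1 := congrFun hg (i₀, ⟨k₀, (τ i₀ k₀).1.1⟩)
    simp only [Finset.sum_apply, Pi.smul_apply, Pi.sub_apply, smul_eq_mul, Pi.zero_apply] at h1
    rw [Finset.sum_eq_single (i₀, k₀)] at h1
    · have h2 : ((i₀, (⟨k₀, (τ i₀ k₀).1.1⟩ : Σ k, A k)) : Fin m × (Σ k, A k)) ≠
          (i₀, ⟨k₀, (τ i₀ k₀).1.2⟩) := by
        intro h
        have h3 : (τ i₀ k₀).1.1 = (τ i₀ k₀).1.2 := by simpa using h
        exact (τ i₀ k₀).2 h3
      simpa [Pi.single_apply, h2] using h1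
    · rintro ⟨i, k⟩ - hne
      have h2 : ((i₀, (⟨k₀, (τ i₀ k₀).1.1⟩ : Σ k, A k)) : Fin m × (Σ k, A k)) ≠
          (i, ⟨k, (τ i k).1.1⟩) := by
        intro h
        apply hne
        simp only [Prod.mk.injEq, Sigma.mk.injEq] at h
        ext <;> simp [h.1, h.2.1]
      have h3 : ((i₀, (⟨k₀, (τ i₀ k₀).1.1⟩ : Σ k, A k)) : Fin m × (Σ k, A k)) ≠
          (i, ⟨k, (τ i k).1.2⟩) := by
        intro h
        apply hne
        simp only [Prod.mk.injEq, Sigma.mk.injEq] at h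
        ext <;> simp [h.1, h.2.1]
      simp [Pi.single_apply, h2, h3]
    · intro h; exact absurd (Finset.mem_univ _) h
  obtain ⟨Q, hQ, h0⟩ := hthin
  refine ⟨Q, hQ, ?_⟩
  intro b hb hQb x hx hsys h N z hh hN hz Λ hΛ
  by_contra hcon
  push Not at hcon
  apply hQb
  apply h0
  -- choose the type
  have hpair : ∀ i k, ∃ q : {q : A k × A k // q.1 ≠ q.2},
      w i (b ⟨k, q.1.1⟩ * ∏ j, x j ^ (q.1.1 : Fin (c + e) → ℤ) j) =
      w i (b ⟨k, q.1.2⟩ * ∏ j, x j ^ (q.1.2 : Fin (c + e) → ℤ) j) := by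
    intro i k
    obtain ⟨a₀, ha₀⟩ := hA k
    obtain ⟨a, -, a', -, hne, heq⟩ := (w i).two' (A k) Finset.univ
      (fun a => b ⟨k, a⟩ * ∏ j, x j ^ (a : Fin (c + e) → ℤ) j) ⟨⟨a₀, ha₀⟩, Finset.mem_univ _⟩
      (fun a _ => mul_ne_zero (hb _) (Finset.prod_ne_zero_iff.mpr fun j _ => zpow_ne_zero _ (hx j)))
      (hsys k)
    exact ⟨⟨(a, a'), hne⟩, heq⟩
  choose τ hτ using hpair
  refine Set.mem_iUnion.mpr ⟨τ, ann Λ, ?_, fun l => (z l : ℚ) / N, fun i j => w i (x j), ?_, ?_⟩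
  · have := finrank_ann Λ
    omega
  · intro i
    exact coset_mem_ann (w i) x h hx hh γ hγ N hN z hz Λ hΛ
  · intro i k
    have h1 := hτ i k
    rw [(w i).map_mul (hb _) (Finset.prod_ne_zero_iff.mpr fun j _ => zpow_ne_zero _ (hx j)),
      (w i).map_mul (hb _) (Finset.prod_ne_zero_iff.mpr fun j _ => zpow_ne_zero _ (hx j)),
      tropHom_monomial (w i) x hx, tropHom_monomial (w i) x hx] at h1
    have h2 : ∑ j, ((((τ i k).1.2 : Fin (c + e) → ℤ) j - ((τ i k).1.1 : Fin (c + e) → ℤ) j : ℤ) : ℚ)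
            * w i (x j) = ∑ j, (((τ i k).1.2 : Fin (c + e) → ℤ) j : ℚ) * w i (x j) -
            ∑ j, (((τ i k).1.1 : Fin (c + e) → ℤ) j : ℚ) * w i (x j) := by
      rw [← Finset.sum_sub_distrib]
      exact Finset.sum_congr rfl fun j _ => by push_cast; ring
    rw [h2]
    simp only [Pi.sub_apply, sub_mul, Finset.sum_sub_distrib, Pi.single_apply, ite_mul, one_mul,
      zero_mul, Finset.sum_ite_eq', Finset.mem_univ, if_true]
    linarith

end CIT85
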