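import Mathlib
import Pool.Agent.Lib.MP_c95b3b_ag_h85.Systems
import Pool.Agent.Lib.MP_c95b3b_ag_h85.Dim

set_option autoImplicit false

namespace CIT85

open MvPolynomial Module

/-- On a variety of dimension at most `d`, any `d + 1` coordinates satisfy an equation. -/
lemma exists_relation {K : Type} [Field K] {n d : ℕ} (P : Ideal (MvPolynomial (Fin n) K))
    [P.IsPrime] (hd : ringKrullDim (MvPolynomial (Fin n) K ⧸ P) ≤ (d : WithBot ℕ∞))
    (I : Finset (Fin n)) (hI : I.card = d + 1) :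
    ∃ f ∈ P, f ≠ 0 ∧ ∀ a ∈ f.support, ∀ j, j ∉ I → a j = 0 := by
  classical
  let x : I → MvPolynomial (Fin n) K ⧸ P := fun i => Ideal.Quotient.mk P (X i.1)
  have hna : ¬ AlgebraicIndependent K x := by
    intro hal
    have h1 := (card_le_ringKrullDim x hal).trans hd
    rw [Fintype.card_coe, hI] at h1
    have h2 : d + 1 ≤ d := by exact_mod_cast h1
    omega
  rw [algebraicIndependent_iff] at hna
  push Not at hna
  obtain ⟨F, hF, hF0⟩ := hna
  refine ⟨rename Subtype.val F, ?_, ?_, ?_⟩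
  · rw [← Ideal.Quotient.eq_zero_iff_mem, ← hF]
    have : (Ideal.Quotient.mkₐ K P).comp (rename Subtype.val) = aeval x := by
      ext i
      simp [x]
    rw [← this]
    rfl
  · intro h
    exact hF0 (rename_injective _ Subtype.val_injective (by simpa using h))
  · intro a ha j hj
    by_contra hne
    have h1 : j ∈ (rename Subtype.val F).vars := by
      rw [mem_vars_iff_mem_support]
      exact ⟨a, ha, Finsupp.mem_support_iff.mpr hne⟩
    have h2 := vars_rename (Subtype.val : I → Fin n) F h1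
    simp only [Finset.mem_image] at h2
    obtain ⟨i, -, hi⟩ := h2
    exact hj (hi ▸ i.2)

/-- A family of nonzero vectors, one supported in each set of `e` coordinates, contains
`c + 1` linearly independent ones, in dimension `c + e`. -/
lemma exists_independent {c e : ℕ} (δ : {I : Finset (Fin (c + e)) // I.card = e} →
    Fin (c + e) → ℚ) (hne : ∀ I, δ I ≠ 0) (hsupp : ∀ I, ∀ j, j ∉ I.1 → δ I j = 0) :
    ∃ κ : Fin (c + 1) → {I : Finset (Fin (c + e)) // I.card = e},
      LinearIndependent ℚ (fun k => δ (κ k)) := by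
  classical
  obtain ⟨κ, a, ha, hspan, hli⟩ := exists_linearIndependent' (K := ℚ) δ
  have hfin : Finite κ := Finite.of_injective a ha
  cases nonempty_fintype κ
  have hcard : c + 1 ≤ Fintype.card κ := by
    by_contra hlt
    push Not at hlt
    have hD : finrank ℚ (Submodule.span ℚ (Set.range δ)) ≤ c := by
      rw [← hspan, finrank_span_eq_card hli]
      omega
    obtain ⟨σ, B, hB⟩ := exists_graph _ hD
    let I : Finset (Fin (c + e)) := Finset.univ.image (fun b : Fin e => σ (Sum.inr b))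
    have hI : I.card = e := by
      rw [Finset.card_image_of_injective _ (fun b b' h => by simpa using h)]
      simp
    apply hne ⟨I, hI⟩
    have h0 : ∀ a : Fin c, δ ⟨I, hI⟩ (σ (Sum.inl a)) = 0 := by
      intro a
      apply hsupp
      simp [I]
    ext j
    obtain ⟨y, rfl⟩ := σ.surjective j
    rcases y with a | b
    · exact h0 a
    · rw [hB _ (Submodule.subset_span ⟨_, rfl⟩) b]
      simp [h0]
  obtain ⟨g⟩ : Nonempty (Fin (c + 1) ↪ κ) := by
    rw [Function.Embedding.nonempty_iff_card_le]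
    simpa using hcard
  exact ⟨fun k => a (g k), hli.comp g g.injective⟩

/-- Criterion for translates of an arbitrary variety of dimension at most `d`. -/
theorem translate_criterion {K : Type} [Field K] (c d m ρ : ℕ) (hm : c * (d + 1) + ρ < m)
    (w : Fin m → TropHom K) (P : Ideal (MvPolynomial (Fin (c + (d + 1))) K)) [P.IsPrime]
    (hd : ringKrullDim (MvPolynomial (Fin (c + (d + 1))) K ⧸ P) ≤ (d : WithBot ℕ∞))
    (γ : Fin ρ → Fin (c + (d + 1)) → K) (hγ : ∀ l j, γ l j ≠ 0) :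
    ∃ Q : MvPolynomial (Fin m × Fin (c + (d + 1))) ℚ, Q ≠ 0 ∧
      ∀ g : Fin (c + (d + 1)) → K, (∀ j, g j ≠ 0) →
        eval (fun s : Fin m × Fin (c + (d + 1)) => w s.1 (g s.2)) Q ≠ 0 →
        ∀ y : Fin (c + (d + 1)) → K, (∀ j, y j ≠ 0) → (∀ f ∈ P, eval y f = 0) →
        ∀ (h : Fin (c + (d + 1)) → K) (N : ℕ) (z : Fin ρ → ℤ), (∀ j, h j ≠ 0) → N ≠ 0 →
          (∀ j, h j ^ N = ∏ l, γ l j ^ z l) →
        ∀ Λ : Submodule ℤ (Fin (c + (d + 1)) → ℤ),
          (∀ a ∈ Λ, ∏ j, (g j * y j) ^ a j = ∏ j, h j ^ a j) → finrank ℤ Λ < d + 1 := by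
  classical
  let 𝓘 := {I : Finset (Fin (c + (d + 1))) // I.card = d + 1}
  choose F hFP hF0 hFs using fun I : 𝓘 => exists_relation P hd I.1 I.2
  let T := Fin m → ∀ I : 𝓘, {q : (F I).support × (F I).support // q.1 ≠ q.2}
  let δ : T → Fin m → 𝓘 → Fin (c + (d + 1)) → ℚ := fun τ i I j =>
    (((τ i I).1.2 : Fin (c + (d + 1)) →₀ ℕ) j : ℚ) - (((τ i I).1.1 : Fin (c + (d + 1)) →₀ ℕ) j : ℚ)
  have hδ : ∀ (τ : T) i, ∃ κ : Fin (c + 1) → 𝓘, LinearIndependent ℚ (fun k => δ τ i (κ k)) := by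
    intro τ i
    refine exists_independent (δ τ i) ?_ ?_
    · intro I h
      apply (τ i I).2
      ext j
      have := congrFun h j
      simp only [δ, Pi.zero_apply, sub_eq_zero] at this
      exact_mod_cast this.symm
    · intro I j hj
      simp only [δ]
      rw [hFs I _ (τ i I).1.1.2 j hj, hFs I _ (τ i I).1.2.2 j hj]
      simp
  choose κ hκ using hδ
  let β : T → Fin m → 𝓘 → ℚ := fun τ i I =>
    w i (coeff ((τ i I).1.2 : Fin (c + (d + 1)) →₀ ℕ) (F I)) -
      w i (coeff ((τ i I).1.1 : Fin (c + (d + 1)) →₀ ℕ) (F I))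
  have hthin : Thin (⋃ τ : T, {ω : Fin m × Fin (c + (d + 1)) → ℚ |
      ∃ W : Submodule ℚ (Fin (c + (d + 1)) → ℚ), finrank ℚ W ≤ c ∧
      ∃ q : Fin ρ → ℚ, ∃ u : Fin m → Fin (c + (d + 1)) → ℚ,
        (∀ i, u i - ∑ l, q l • (fun j => w i (γ l j)) ∈ W) ∧
        ∀ i k, ∑ s : Fin m × Fin (c + (d + 1)),
          (if s.1 = i then δ τ i (κ τ i k) s.2 else 0) * ω s =
          ∑ j, δ τ i (κ τ i k) j * u i j + β τ i (κ τ i k)}) := by
    refine Thin.iUnion fun τ => ?_
    refine thin_core c (d + 1) m ρ hm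
      (fun i k (s : Fin m × Fin (c + (d + 1))) => if s.1 = i then δ τ i (κ τ i k) s.2 else 0) ?_
      (fun i k j => δ τ i (κ τ i k) j) (fun i k => β τ i (κ τ i k)) (fun l i j => w i (γ l j))
    rw [Fintype.linearIndependent_iff]
    rintro g hg ⟨i₀, k₀⟩
    have h1 := (Fintype.linearIndependent_iff.mp (hκ τ i₀)) (fun k => g (i₀, k)) ?_ k₀
    · exact h1
    · ext j
      have h2 := congrFun hg (i₀, j)
      simp only [Finset.sum_apply, Pi.smul_apply, smul_eq_mul, Pi.zero_apply,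
        Fintype.sum_prod_type] at h2
      rw [Finset.sum_eq_single i₀] at h2
      · simpa using h2
      · intro i _ hne
        exact Finset.sum_eq_zero fun k _ => by rw [if_neg (fun h => hne h.symm), mul_zero]
      · intro h; exact absurd (Finset.mem_univ _) h
  obtain ⟨Q, hQ, h0⟩ := hthin
  refine ⟨Q, hQ, ?_⟩
  intro g hg hQg y hy hPy h N z hh hN hz Λ hΛ
  by_contra hcon
  push Not at hcon
  apply hQg
  apply h0
  have hpair : ∀ i (I : 𝓘), ∃ q : {q : (F I).support × (F I).support // q.1 ≠ q.2},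
      w i (coeff (q.1.1 : Fin (c + (d + 1)) →₀ ℕ) (F I) *
        ∏ j, y j ^ (((q.1.1 : Fin (c + (d + 1)) →₀ ℕ) j : ℕ) : ℤ)) =
      w i (coeff (q.1.2 : Fin (c + (d + 1)) →₀ ℕ) (F I) *
        ∏ j, y j ^ (((q.1.2 : Fin (c + (d + 1)) →₀ ℕ) j : ℕ) : ℤ)) := by
    intro i I
    have hsup : (F I).support.Nonempty := by
      rw [Finset.nonempty_iff_ne_empty, Ne, MvPolynomial.support_eq_empty]
      exact hF0 I
    have hsum := hPy (F I) (hFP I)
    rw [eval_eq'] at hsum
    obtain ⟨a, ha, a', ha', hne, heq⟩ := (w i).two' _ (F I).support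
      (fun a => coeff a (F I) * ∏ j, y j ^ (((a : Fin (c + (d + 1)) →₀ ℕ) j : ℕ) : ℤ)) hsup
      (fun a ha => mul_ne_zero (MvPolynomial.mem_support_iff.mp ha)
        (Finset.prod_ne_zero_iff.mpr fun j _ => zpow_ne_zero _ (hy j)))
      (by simpa using hsum)
    exact ⟨⟨(⟨a, ha⟩, ⟨a', ha'⟩), fun h => hne (by simpa using h)⟩, heq⟩
  choose τ hτ using hpair
  have hgy : ∀ j, g j * y j ≠ 0 := fun j => mul_ne_zero (hg j) (hy j)
  refine Set.mem_iUnion.mpr ⟨τ, ann Λ, ?_, fun l => (z l : ℚ) / N,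
    fun i j => w i (g j * y j), ?_, ?_⟩
  · have := finrank_ann Λ
    omega
  · intro i
    exact coset_mem_ann (w i) (fun j => g j * y j) h hgy hh γ hγ N hN z hz Λ hΛ
  · intro i k
    generalize hI : κ τ i k = I
    have h1 := hτ i I
    rw [(w i).map_mul (MvPolynomial.mem_support_iff.mp (τ i I).1.1.2)
        (Finset.prod_ne_zero_iff.mpr fun j _ => zpow_ne_zero _ (hy j)),
      (w i).map_mul (MvPolynomial.mem_support_iff.mp (τ i I).1.2.2)
        (Finset.prod_ne_zero_iff.mpr fun j _ => zpow_ne_zero _ (hy j)),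
      tropHom_monomial (w i) y hy, tropHom_monomial (w i) y hy] at h1
    have h2 : ∑ s : Fin m × Fin (c + (d + 1)), (if s.1 = i then δ τ i I s.2 else 0) *
        w s.1 (g s.2) = ∑ j, δ τ i I j * w i (g j) := by
      rw [Fintype.sum_prod_type, Finset.sum_eq_single i]
      · simp
      · intro i' _ hne
        exact Finset.sum_eq_zero fun j _ => by rw [if_neg hne, zero_mul]
      · intro h; exact absurd (Finset.mem_univ _) h
    have h3 : ∑ j, δ τ i I j * w i (g j * y j) =
        ∑ j, δ τ i I j * w i (g j) + ∑ j, δ τ i I j * w i (y j) := by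
      rw [← Finset.sum_add_distrib]
      exact Finset.sum_congr rfl fun j _ => by rw [(w i).map_mul (hg j) (hy j)]; ring
    have h4 : ∑ j, δ τ i I j * w i (y j) =
        ∑ j, ((((τ i I).1.2 : Fin (c + (d + 1)) →₀ ℕ) j : ℤ) : ℚ) * w i (y j) -
        ∑ j, ((((τ i I).1.1 : Fin (c + (d + 1)) →₀ ℕ) j : ℤ) : ℚ) * w i (y j) := by
      rw [← Finset.sum_sub_distrib]
      exact Finset.sum_congr rfl fun j _ => by simp only [δ]; push_cast; ring
    rw [h2, h3, h4]
    simp only [β]
    linarith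

end CIT85
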